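import Pool.Agent.K3h88.LCT.Stm

/-!
# Charts of a topological manifold with boundary
-/

set_option autoImplicit false

namespace Pool.Agent.K3h40.LCT

open Pool.Agent.Helper611 Pool.Agent.K3h88.LCM Pool.Agent.K3h88.LCT
open Topology Filter
open scoped Manifold

theorem bdry_iff {W : Type} [TopologicalSpace W] [ChartedSpace (EuclideanHalfSpace 4) W] (y : W) :
    y ∈ (𝓡∂ 4).boundary W ↔
      0 = ((chartAt (EuclideanHalfSpace 4) y y).1 : EuclideanSpace ℝ (Fin 4)) 0 := by
  have h1 : y ∈ (𝓡∂ 4).boundary W ↔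
      extChartAt (𝓡∂ 4) y y ∈ frontier (Set.range (𝓡∂ 4)) := Iff.rfl
  have h2 : Set.range (𝓡∂ 4) = {y : EuclideanSpace ℝ (Fin 4) | 0 ≤ y 0} :=
    range_euclideanHalfSpace 4
  rw [h1, h2, frontier_halfSpace]
  rfl

/-- the open half-space -/
noncomputable def jj : OpenPartialHomeomorph {w : EuclideanSpace ℝ (Fin 4) // 0 ≤ w 0}
    (EuclideanSpace ℝ (Fin 4)) where
  toFun := Subtype.val
  invFun y := if h : 0 ≤ y 0 then ⟨y, h⟩ else ⟨0, by simp⟩
  source := {w | 0 < w.1 0}
  target := {y | 0 < y 0}
  map_source' := fun w hw => hw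
  map_target' := fun y hy => by
    have h : 0 ≤ y 0 := le_of_lt hy
    simp only [dif_pos h]
    exact hy
  left_inv' := fun w _ => by
    simp only [dif_pos w.2]
  right_inv' := fun y hy => by
    have h : 0 ≤ y 0 := le_of_lt hy
    simp only [dif_pos h]
  open_source := by
    have h1 : Continuous fun w : {w : EuclideanSpace ℝ (Fin 4) // 0 ≤ w 0} => w.1 0 := by
      fun_prop
    exact isOpen_lt continuous_const h1
  open_target := by
    have h1 : Continuous fun w : EuclideanSpace ℝ (Fin 4) => w 0 := by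
      fun_prop
    exact isOpen_lt continuous_const h1
  continuousOn_toFun := continuous_subtype_val.continuousOn
  continuousOn_invFun := by
    rw [Topology.IsInducing.subtypeVal.continuousOn_iff]
    refine continuousOn_id.congr fun y hy => ?_
    have h : 0 ≤ y 0 := le_of_lt hy
    simp only [Function.comp_apply, dif_pos h, id]

theorem cht : StmCht := by
  intro X W _ _ _ h x
  let c : OpenPartialHomeomorph X {w : EuclideanSpace ℝ (Fin 4) // 0 ≤ w 0} :=
    h.toOpenPartialHomeomorph.trans (chartAt (EuclideanHalfSpace 4) (h x))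
  have hx : x ∈ c.source := by
    have : x ∈ (h.toOpenPartialHomeomorph.trans (chartAt (EuclideanHalfSpace 4) (h x))).source := by
      rw [OpenPartialHomeomorph.trans_source]
      refine ⟨?_, ?_⟩
      · simp
      · exact mem_chart_source (EuclideanHalfSpace 4) (h x)
    exact this
  have hcx : (c x).1 0 =
      ((chartAt (EuclideanHalfSpace 4) (h x) (h x)).1 : EuclideanSpace ℝ (Fin 4)) 0 := rfl
  refine ⟨⟨c, hx, fun hb => ?_⟩, fun hb => ?_⟩
  · rw [hcx]
    exact ((bdry_iff _).1 hb).symm
  · rw [bdry_iff] at hb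
    have h0 : 0 < (c x).1 0 := lt_of_le_of_ne (c x).2 (by rw [hcx]; exact hb)
    refine ⟨c.trans jj, ?_⟩
    rw [OpenPartialHomeomorph.trans_source]
    exact ⟨hx, h0⟩

end Pool.Agent.K3h40.LCT
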