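import Pool.Agent.K3h88.LCT.Stm
import Pool.Agent.Helper514.IoD

/-!
# Boundary tetrahedra have no Euclidean charts (invariance of domain)
-/

set_option autoImplicit false

namespace Pool.Agent.K3h40.LCT

open Finset Pool.Agent.Helper611 Pool.Agent.K3h88.LCM Pool.Agent.K3h88.LCT
open Metric Topology Filter

theorem noi : StmNoi := by
  intro n Fm hF5 x0 hx0t c hx0c
  classical
  obtain ⟨t, ht, hxt⟩ := hx0t
  have ht' := Finset.mem_filter.1 ht
  obtain ⟨htf, h4, h1⟩ := ht'
  obtain ⟨A, hA⟩ := Finset.card_eq_one.1 h1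
  have hAm : A ∈ Fm ∧ t ⊆ A := by
    have : A ∈ Fm.filter (fun A => t ⊆ A) := by rw [hA]; exact Finset.mem_singleton_self _
    exact Finset.mem_filter.1 this
  have hFc : A.card ≤ 5 := (hF5 A hAm.1).le
  have htF : t ⊆ A := hAm.2
  have htne : t.Nonempty := by
    rw [← Finset.card_pos]; omega
  have hFσ : ∀ σ ∈ (kx Fm).faces, t ⊆ σ → σ ⊆ A := by
    intro σ hσ hts
    have hσ' : σ ∈ insert ∅ (faces Fm) := hσ
    rw [Finset.mem_insert] at hσ'
    rcases hσ' with rfl | hσ'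
    · exact Finset.empty_subset _
    · obtain ⟨-, B, hB, hσB⟩ := Pool.Agent.K3h88.LCT.mem_faces.1 hσ'
      have hB' : B ∈ Fm.filter (fun A => t ⊆ A) := Finset.mem_filter.2 ⟨hB, hts.trans hσB⟩
      rw [hA, Finset.mem_singleton] at hB'
      rw [← hB']
      exact hσB
  have htK : t ∈ (kx Fm).faces := Finset.mem_insert_of_mem htf
  let a : Fin 4 → Fin n := t.orderEmbOfFin h4
  have hainj : Function.Injective a := (t.orderEmbOfFin h4).injective
  have hamem : ∀ i, a i ∈ t := fun i => t.orderEmbOfFin_mem h4 i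
  have hat : ∀ v ∈ t, ∃ i, a i = v := by
    intro v hv
    have : v ∈ Set.range (t.orderEmbOfFin h4) := by
      rw [Finset.range_orderEmbOfFin]; exact hv
    exact this
  have hsum : ∀ y : Fin n → ℝ, ∑ i, y (a i) = ∑ v ∈ t, y v := by
    intro y
    rw [← Finset.map_orderEmbOfFin_univ t h4, Finset.sum_map]
    rfl
  -- the barycentre
  let b : Fin n → ℝ := fun v => if v ∈ t then 1/4 else 0
  have hb1 : ∑ v, b v = 1 := by
    show ∑ v, (if v ∈ t then (1/4 : ℝ) else 0) = 1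
    rw [← Finset.sum_filter]
    simp [h4]
  have hb0 : ∀ v, 0 ≤ b v := by
    intro v
    show 0 ≤ if v ∈ t then (1/4 : ℝ) else 0
    split_ifs <;> norm_num
  have hbt : ∀ v, v ∉ t → b v = 0 := by
    intro v hv
    show (if v ∈ t then (1/4 : ℝ) else 0) = 0
    rw [if_neg hv]
  have hbp : ∀ v ∈ t, 0 < b v := by
    intro v hv
    show 0 < if v ∈ t then (1/4 : ℝ) else 0
    rw [if_pos hv]; norm_num
  -- the sequence towards `x0`
  let p : ℕ → (Fin n → ℝ) := fun k v => (1 - 1 / ((k : ℝ) + 1)) * x0.1 v +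
    (1 / ((k : ℝ) + 1)) * b v
  have hk1 : ∀ k : ℕ, 0 < 1 / ((k : ℝ) + 1) := fun k => by positivity
  have hk2 : ∀ k : ℕ, 1 / ((k : ℝ) + 1) ≤ 1 := fun k => by
    rw [div_le_one (by positivity)]
    have : (0 : ℝ) ≤ k := Nat.cast_nonneg k
    linarith
  have hpm : ∀ k, p k ∈ Sp Fm := by
    intro k
    refine ⟨?_, ?_, t, htK, ?_⟩
    · intro v
      have e1 := x0.2.1 v
      have e2 := hk1 k
      have e3 := hk2 k
      exact add_nonneg (mul_nonneg (by linarith) e1) (mul_nonneg e2.le (hb0 v))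
    · show ∑ v, ((1 - 1 / ((k : ℝ) + 1)) * x0.1 v + (1 / ((k : ℝ) + 1)) * b v) = 1
      rw [Finset.sum_add_distrib, ← Finset.mul_sum, ← Finset.mul_sum, x0.2.2.1, hb1]
      ring
    · intro v hv
      show (1 - 1 / ((k : ℝ) + 1)) * x0.1 v + (1 / ((k : ℝ) + 1)) * b v = 0
      rw [hxt v hv, hbt v hv]
      ring
  let P : ℕ → Sp Fm := fun k => ⟨p k, hpm k⟩
  have hP : Tendsto P atTop (𝓝 x0) := by
    rw [tendsto_subtype_rng, tendsto_pi_nhds]
    intro v
    have e1 : Tendsto (fun k : ℕ => 1 / ((k : ℝ) + 1)) atTop (𝓝 0) :=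
      tendsto_one_div_add_atTop_nhds_zero_nat
    have e2 := ((tendsto_const_nhds (x := (1 : ℝ))).sub e1).mul_const (x0.1 v)
    have e3 := e1.mul_const (b v)
    have e4 := e2.add e3
    simp only [sub_zero, one_mul, zero_mul, add_zero] at e4
    exact e4
  have hev : ∀ᶠ k in atTop, P k ∈ c.source := hP (c.open_source.mem_nhds hx0c)
  obtain ⟨k0, hk0⟩ := hev.exists
  let X : Sp Fm := P k0
  have hc : X ∈ c.source := hk0
  have hXp : ∀ v ∈ t, 0 < X.1 v := by
    intro v hv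
    have e1 := x0.2.1 v
    have e2 := hk1 k0
    have e3 := hk2 k0
    have e4 := hbp v hv
    exact add_pos_of_nonneg_of_pos (mul_nonneg (by linarith) e1) (mul_pos e2 e4)
  have hX0 : ∀ v, v ∉ t → X.1 v = 0 := by
    intro v hv
    show (1 - 1 / ((k0 : ℝ) + 1)) * x0.1 v + (1 / ((k0 : ℝ) + 1)) * b v = 0
    rw [hxt v hv, hbt v hv]
    ring
  obtain ⟨x, hxX⟩ : ∃ x : Fin n → ℝ, x = X.1 := ⟨_, rfl⟩
  let N : Set (Sp Fm) := {y | ∀ v ∈ t, 0 < y.1 v}
  have hNo : IsOpen N := by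
    have : N = ⋂ v ∈ t, {y : Sp Fm | 0 < y.1 v} := by
      ext y; simp [N]
    rw [this]
    refine isOpen_biInter_finset fun v _ => ?_
    exact isOpen_lt continuous_const ((continuous_apply v).comp continuous_subtype_val)
  have hXN : X ∈ N := hXp
  have hNF : ∀ y ∈ N, ∀ v, v ∉ A → y.1 v = 0 := by
    intro y hy v hv
    obtain ⟨_, _, σ, hσ, hσ0⟩ := y.2
    have htσ : t ⊆ σ := by
      intro u hu
      by_contra hus
      exact (hy u hu).ne' (hσ0 u hus)
    exact hσ0 v fun h => hv (hFσ σ hσ htσ h)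
  have hNinj : ∀ y ∈ N, ∀ y' ∈ N, (∀ v ∈ t, y.1 v = y'.1 v) → y = y' := by
    intro y hy y' hy' h
    apply Subtype.ext
    funext v
    by_cases hv : v ∈ t
    · exact h v hv
    by_cases hvF : v ∈ A
    · have hFe : insert v t = A := Finset.eq_of_subset_of_card_le
        (Finset.insert_subset hvF htF) (by rw [Finset.card_insert_of_notMem hv, h4]; exact hFc)
      have hs : ∀ z ∈ N, z.1 v + ∑ u ∈ t, z.1 u = 1 := by
        intro z hz
        rw [← Finset.sum_insert hv, hFe, ← z.2.2.1]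
        exact Finset.sum_subset (Finset.subset_univ _) fun u _ hu => hNF z hz u hu
      have e1 := hs y hy
      have e2 := hs y' hy'
      rw [Finset.sum_congr rfl h] at e1
      linarith
    · rw [hNF y hy v hvF, hNF y' hy' v hvF]
  have hcX : c X ∈ c.target := c.map_source hc
  have hsymX : c.symm (c X) = X := c.left_inv hc
  have hU : c.target ∩ c.symm ⁻¹' N ∈ 𝓝 (c X) := by
    refine inter_mem (c.open_target.mem_nhds hcX) ((c.symm.continuousAt hcX) ?_)
    rw [hsymX]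
    exact hNo.mem_nhds hXN
  obtain ⟨r, hr, hrU⟩ := nhds_basis_closedBall.mem_iff.1 hU
  let ψ : Sp Fm → EuclideanSpace ℝ (Fin 4) := fun y => WithLp.toLp 2 (fun i => y.1 (a i))
  have hψ : Continuous ψ := by
    refine (PiLp.continuous_toLp 2 _).comp (continuous_pi fun i => ?_)
    exact (continuous_apply (a i)).comp continuous_subtype_val
  have hfc : ContinuousOn (fun w => ψ (c.symm w)) (closedBall (c X) r) :=
    hψ.comp_continuousOn (c.symm.continuousOn.mono fun w hw => (hrU hw).1)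
  have hfi : Set.InjOn (fun w => ψ (c.symm w)) (closedBall (c X) r) := by
    intro w hw w' hw' h
    have e1 : c.symm w = c.symm w' := by
      refine hNinj _ (hrU hw).2 _ (hrU hw').2 fun v hv => ?_
      obtain ⟨i, rfl⟩ := hat v hv
      exact congrArg (fun z : EuclideanSpace ℝ (Fin 4) => z i) h
    exact c.symm.injOn (hrU hw).1 (hrU hw').1 e1
  have hnh := Pool.Agent.Helper514.IoD.image_mem_nhds (fun w => ψ (c.symm w)) (c X) r hr hfc hfi
  simp only [hsymX] at hnh
  let Q : ℕ → EuclideanSpace ℝ (Fin 4) := fun k =>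
    WithLp.toLp 2 (fun i => X.1 (a i) + 1 / ((k : ℝ) + 1))
  have hQ : Tendsto Q atTop (𝓝 (ψ X)) := by
    refine ((PiLp.continuous_toLp 2 _).tendsto _).comp (tendsto_pi_nhds.2 fun i => ?_)
    have e1 : Tendsto (fun k : ℕ => 1 / ((k : ℝ) + 1)) atTop (𝓝 0) :=
      tendsto_one_div_add_atTop_nhds_zero_nat
    have e2 := e1.const_add (X.1 (a i))
    rw [add_zero] at e2
    exact e2
  obtain ⟨k, w, hw, hwk⟩ := (hQ.eventually hnh).exists
  have e1 : ∑ i, (c.symm w).1 (a i) = ∑ i, (X.1 (a i) + 1 / ((k : ℝ) + 1)) := by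
    refine Finset.sum_congr rfl fun i _ => ?_
    exact congrArg (fun z : EuclideanSpace ℝ (Fin 4) => z i) hwk
  rw [hsum, Finset.sum_add_distrib, hsum] at e1
  have e2 : ∑ v ∈ t, (c.symm w).1 v ≤ 1 := by
    rw [← (c.symm w).2.2.1]
    exact Finset.sum_le_sum_of_subset_of_nonneg (Finset.subset_univ _)
      fun v _ _ => (c.symm w).2.1 v
  have e3 : ∑ v ∈ t, X.1 v = 1 := by
    rw [← X.2.2.1]
    exact Finset.sum_subset (Finset.subset_univ _) fun v _ hv => hX0 v hv
  have e4 : 0 < ∑ i : Fin 4, 1 / ((k : ℝ) + 1) :=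
    Finset.sum_pos (fun i _ => by positivity) Finset.univ_nonempty
  rw [e3] at e1
  linarith

end Pool.Agent.K3h40.LCT
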